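import Pool.Agent.H.MP_42a974_an.C

open MeasureTheory Set
open scoped ENNReal

namespace Pool.Agent.Results.MP_42a974_an.Broken

/-- Positive part of the kernel `log (1 / d)`, equal to `+∞` at `d = 0`. -/
noncomputable def kerPos (d : ℝ) : ℝ≥0∞ := if d = 0 then ⊤ else ENNReal.ofReal (Real.log (1 / d))

/-- Negative part of the kernel `log (1 / d)`. -/
noncomputable def kerNeg (d : ℝ) : ℝ≥0∞ := ENNReal.ofReal (-Real.log (1 / d))

/-- Logarithmic energy `∬ log (1 / |x - y|) dμ dμ` in the extended reals: the integral of the positive part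
of the kernel minus the integral of its negative part (finite when the support is bounded). -/
noncomputable def energy {n : ℕ} (μ : Measure (EuclideanSpace ℝ (Fin n))) : EReal :=
  ((∫⁻ x, ∫⁻ y, kerPos (dist x y) ∂μ ∂μ : ℝ≥0∞) : EReal) - ((∫⁻ x, ∫⁻ y, kerNeg (dist x y) ∂μ ∂μ : ℝ≥0∞) : EReal)

/-- Logarithmic capacity `exp (- inf I)`, over the Borel probability measures carried by `K`. -/
noncomputable def cap {n : ℕ} (K : Set (EuclideanSpace ℝ (Fin n))) : ℝ≥0∞ :=
  EReal.exp (-⨅ (μ : Measure (EuclideanSpace ℝ (Fin n))) (_ : IsProbabilityMeasure μ ∧ μ Kᶜ = 0), energy μ)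

open Pool.Agent.H.MP_42a974_an Real

lemma ker_id {d : ℝ} (h0 : 0 ≤ d) (h2 : d ≤ 2) : κ d + kerNeg d = ENNReal.ofReal (log 3) + kerPos d := by
  by_cases e : d = 0
  · simp [κ, kerPos, e]
  have dp : 0 < d := lt_of_le_of_ne h0 (Ne.symm e)
  have l3 : log d ≤ log 3 := log_le_log dp (by linarith)
  have l0 : 0 ≤ log 3 := log_nonneg (by norm_num)
  rw [κ, kerPos, kerNeg, if_neg e, if_neg e, log_div (by norm_num) e, one_div, log_inv, neg_neg]
  rcases le_total (log d) 0 with h | h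
  · rw [ENNReal.ofReal_of_nonpos h, add_zero, ← ENNReal.ofReal_add l0 (by linarith)]; rfl
  · rw [ENNReal.ofReal_of_nonpos (neg_nonpos.2 h), add_zero, ← ENNReal.ofReal_add (by linarith) h, sub_add_cancel]

lemma energy_eq {n : ℕ} (K : Set (V n)) (hb : Bornology.IsBounded K) (hK : Metric.diam K = 2) (μ : Measure (V n))
    [IsProbabilityMeasure μ] (hμ : μ Kᶜ = 0) : energy μ = (E μ μ : EReal) - (log 3 : ℝ) := by
  have m1 : Measurable fun p : V n × V n => κ (dist p.1 p.2) := κ_meas.comp measurable_dist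
  have m2 : Measurable fun p : V n × V n => kerPos (dist p.1 p.2) :=
    (Measurable.ite (measurableSet_singleton 0) measurable_const (by fun_prop) : Measurable kerPos).comp measurable_dist
  have m3 : Measurable fun p : V n × V n => kerNeg (dist p.1 p.2) := by unfold kerNeg; fun_prop
  have ha : ∀ᵐ x ∂μ, x ∈ K := hμ
  have hd : ∀ᵐ p ∂(μ.prod μ), dist p.1 p.2 ≤ 2 := by
    filter_upwards [Measure.quasiMeasurePreserving_fst.ae ha, Measure.quasiMeasurePreserving_snd.ae ha] with p h1 h2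
    exact hK ▸ Metric.dist_le_diam_of_mem hb h1 h2
  have e := lintegral_congr_ae (hd.mono fun p hp => ker_id dist_nonneg hp)
  rw [lintegral_add_left m1, lintegral_add_left measurable_const, lintegral_const, measure_univ, mul_one] at e
  have f : ∫⁻ p, kerNeg (dist p.1 p.2) ∂(μ.prod μ) ≠ ⊤ := by
    refine ne_top_of_le_ne_top (b := ∫⁻ _, 2 ∂(μ.prod μ)) (by simp) (lintegral_mono_ae (hd.mono fun p hp => ?_))
    rw [kerNeg, one_div, log_inv, neg_neg]
    exact (ENNReal.ofReal_le_ofReal ((log_le_self dist_nonneg).trans hp)).trans_eq (ENNReal.ofReal_ofNat 2)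
  rw [energy, E, ← lintegral_prod _ m1.aemeasurable, ← lintegral_prod _ m2.aemeasurable,
    ← lintegral_prod _ m3.aemeasurable]
  generalize ∫⁻ p, κ (dist p.1 p.2) ∂(μ.prod μ) = A at *
  generalize ∫⁻ p, kerPos (dist p.1 p.2) ∂(μ.prod μ) = B at *
  generalize ∫⁻ p, kerNeg (dist p.1 p.2) ∂(μ.prod μ) = C at *
  lift C to NNReal using f
  have l0 : 0 ≤ log 3 := log_nonneg (by norm_num)
  rcases eq_or_ne B ⊤ with rfl | hB
  · have : A = ⊤ := by simpa using e
    subst this
    simp only [EReal.coe_ennreal_top]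
    rw [EReal.top_sub_coe, EReal.coe_nnreal_eq_coe_real, EReal.top_sub_coe]
  · lift B to NNReal using hB
    have hA : A ≠ ⊤ := by
      rintro rfl
      simp only [top_add] at e
      exact (ENNReal.add_ne_top.2 ⟨ENNReal.ofReal_ne_top, ENNReal.coe_ne_top⟩) e.symm
    lift A to NNReal using hA
    have := congrArg ENNReal.toReal e
    rw [ENNReal.toReal_add ENNReal.coe_ne_top ENNReal.coe_ne_top,
      ENNReal.toReal_add ENNReal.ofReal_ne_top ENNReal.coe_ne_top, ENNReal.toReal_ofReal l0] at this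
    simp only [ENNReal.coe_toReal] at this
    simp only [EReal.coe_nnreal_eq_coe_real, ← EReal.coe_sub]
    congr 1; linarith

lemma fin {n : ℕ} [Nontrivial (V n)] {a b : ℝ} (hb : 0 ≤ b) (hab : b < a)
    (h1 : ∀ (μ : Measure (V n)) [IsProbabilityMeasure μ], (∀ᵐ x ∂μ, ‖x‖ ≤ 1) → ENNReal.ofReal a ≤ E μ μ)
    (h2 : ∃ K : Set (V n), IsCompact K ∧ Metric.diam K = 2 ∧ ∃ μ : Measure (V n), IsProbabilityMeasure μ ∧
      μ Kᶜ = 0 ∧ E μ μ ≤ ENNReal.ofReal b) :
    ∃ K : Set (V n), IsCompact K ∧ Metric.diam K = 2 ∧ cap (Metric.closedBall (0 : V n) 1) < cap K := by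
  obtain ⟨K, hK, hd, μ, hμ, hn, hE⟩ := h2
  refine ⟨K, hK, hd, ?_⟩
  rw [cap, cap, EReal.exp_lt_exp_iff, EReal.neg_lt_neg_iff]
  have c : ∀ {t : ℝ}, 0 ≤ t → ((ENNReal.ofReal t : ℝ≥0∞) : EReal) = t := fun ht => by
    rw [EReal.coe_ennreal_ofReal, max_eq_left ht]
  calc _ ≤ energy μ := iInf₂_le μ ⟨hμ, hn⟩
    _ ≤ ((b - log 3 : ℝ) : EReal) := by
      rw [energy_eq K hK.isBounded hd μ hn, EReal.coe_sub, ← c hb]
      exact EReal.sub_le_sub (EReal.coe_ennreal_le_coe_ennreal_iff.2 hE) le_rfl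
    _ < ((a - log 3 : ℝ) : EReal) := by exact_mod_cast sub_lt_sub_right hab _
    _ ≤ _ := le_iInf₂ fun ν hν => by
      have := hν.1
      rw [energy_eq _ Metric.isBounded_closedBall (by rw [Metric.diam_closedBall_eq _ zero_le_one, mul_one]) ν hν.2,
        EReal.coe_sub, ← c (hb.trans hab.le)]
      refine EReal.sub_le_sub (EReal.coe_ennreal_le_coe_ennreal_iff.2 (h1 ν ?_)) le_rfl
      have ha : ∀ᵐ x ∂ν, x ∈ Metric.closedBall (0 : V n) 1 := hν.2
      simpa using ha

lemma nn {t : ℝ} (h0 : 0 < t) (h9 : t ≤ 9) : 0 ≤ log 3 - log t / 2 := by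
  have := log_le_log h0 h9
  rw [show (9 : ℝ) = 3 ^ 2 by norm_num, log_pow] at this
  push_cast at this; linarith

theorem result : ∀ n ∈ ({3, 4} : Set ℕ), ∃ K : Set (EuclideanSpace ℝ (Fin n)), IsCompact K ∧ Metric.diam K = 2 ∧
    cap (Metric.closedBall (0 : EuclideanSpace ℝ (Fin n)) 1) < cap K := by
  rintro n (rfl | rfl)
  · refine fin (nn (by norm_num) (by norm_num)) ?_ ball3 cfg3
    have : 2 * log 2 - 1 < log ((1471600 : ℕ) / 1000000) := by
      rw [lt_log_iff_exp_lt (by norm_num), exp_sub, show 2 * log 2 = log 4 by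
        rw [show (4 : ℝ) = 2 ^ 2 by norm_num, log_pow]; norm_num, exp_log (by norm_num), div_lt_iff₀ (exp_pos _)]
      have := exp_one_gt_d9
      push_cast; linarith
    linarith
  · refine fin (nn (by norm_num) (by norm_num)) ?_ ball4 cfg4
    have : log 2 - 1 / 8 < log ((1765600 : ℕ) / 1000000) := by
      rw [lt_log_iff_exp_lt (by norm_num), exp_sub, exp_log (by norm_num), div_lt_iff₀ (exp_pos _)]
      have := quadratic_le_exp_of_nonneg (x := 1 / 8) (by norm_num)
      push_cast; linarith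
    linarith

end Pool.Agent.Results.MP_42a974_an.Broken
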